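import Mathlib

/-!
# Étale motivic cohomology of arithmetic schemes: projective spaces and blow-ups

Objects: proper regular connected arithmetic schemes.  `H X n i` is the group
`H^i(X_et, ℤ(n))`, for `n ≥ dim X` (the values for `n < dim X` are not used).
-/

namespace Pool.Agent.N522.AM

/-- The data: proper regular connected arithmetic schemes and their étale motivic cohomology. -/
structure Theory where
  /-- proper regular connected arithmetic schemes -/
  Obj : Type
  /-- the Krull dimension -/
  dim : Obj → ℕ
  /-- projective and flat over `ℤ` -/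
  FlatProj : Obj → Prop
  /-- projective over a finite field -/
  FiniteField : Obj → Prop
  /-- `X × ℙ^r` -/
  prP : Obj → ℕ → Obj
  /-- `H^i(X_et, ℤ(n))` -/
  H : Obj → ℕ → ℤ → Type
  [grp : ∀ X n i, AddCommGroup (H X n i)]

attribute [instance] Theory.grp

/-- the product of the groups `H^{i - 2j}(X_et, ℤ(n - j))`, `a ≤ j < a + k` -/
abbrev Tate (T : Theory) (X : T.Obj) (n : ℕ) (i : ℤ) (a k : ℕ) : Type :=
  ∀ j : Fin k, T.H X (n - (a + j)) (i - 2 * ((a : ℤ) + (j : ℕ)))

/-- Known facts.

* `proj`: the projective bundle formula, in weights at least the dimension;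
* `divisible`: the groups of negative degree are uniquely divisible (they are rational motivic
  cohomology groups);
* `blow`: a smooth projective variety `Y` over a finite field is a closed subscheme of `ℙ^N_ℤ` for
  all large `N`; the blow-up formula for the blow-up `B` of `P = ℙ^N_ℤ` along `Y`, a regular closed
  subscheme of codimension `N + 1 - dim Y`. -/
structure Facts (T : Theory) : Prop where
  dim_prP : ∀ X r, T.dim (T.prP X r) = T.dim X + r
  proj : ∀ X r n (i : ℤ), T.dim X + r ≤ n →
    Nonempty (T.H (T.prP X r) n i ≃+ Tate T X n i 0 (r + 1))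
  divisible : ∀ X n (i : ℤ), T.dim X ≤ n → i < 0 → ∀ m : ℕ, 0 < m →
    Function.Bijective fun x : T.H X n i => m • x
  blow : ∀ Y, T.FiniteField Y → ∃ N0 : ℕ, ∀ N ≥ N0, T.dim Y ≤ N ∧ ∃ P B : T.Obj,
    T.FlatProj B ∧ T.dim B = N + 1 ∧ ∀ n (i : ℤ), N + 1 ≤ n →
      Nonempty (T.H B n i ≃+ T.H P n i × Tate T Y n i 1 (N - T.dim Y))

/-- A class of objects closed under `X ↦ X × ℙ^r` and containing those that are projective and flat
over `ℤ` (for instance: all objects; those that are projective; those that are flat; those that are
projective and flat). -/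
structure Class (T : Theory) (S : T.Obj → Prop) : Prop where
  prP : ∀ X r, S X → S (T.prP X r)
  flat : ∀ X, T.FlatProj X → S X

end Pool.Agent.N522.AM
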