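import Pool.Agent.N522.AM.Defs

namespace Pool.Agent.N522.AM

theorem fg_of_equiv {A B : Type} [AddCommGroup A] [AddCommGroup B] (e : A ≃+ B)
    (h : AddGroup.FG A) : AddGroup.FG B :=
  AddGroup.fg_of_surjective (f := e.toAddMonoidHom) e.surjective (hG := h)

theorem fg_of_pi {k : ℕ} {A : Fin k → Type} [∀ j, AddCommGroup (A j)]
    (h : AddGroup.FG (∀ j, A j)) (j : Fin k) : AddGroup.FG (A j) :=
  AddGroup.fg_of_surjective (f := Pi.evalAddMonoidHom A j) (Function.surjective_eval j) (hG := h)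

theorem fg_snd {A B : Type} [AddCommGroup A] [AddCommGroup B] (h : AddGroup.FG (A × B)) :
    AddGroup.FG B :=
  AddGroup.fg_of_surjective (f := AddMonoidHom.snd A B) Prod.snd_surjective (hG := h)

theorem fg_cast (T : Theory) (X : T.Obj) {n n' : ℕ} {i i' : ℤ} (hn : n = n') (hi : i = i')
    (h : AddGroup.FG (T.H X n i)) : AddGroup.FG (T.H X n' i') := by
  subst hn; subst hi; exact h

/-- component `j` of a product of Tate twists -/
theorem fg_comp (T : Theory) (X : T.Obj) (n : ℕ) (i : ℤ) (a k : ℕ)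
    (h : AddGroup.FG (Tate T X n i a k)) (j : ℕ) (hj : j < k) (n' : ℕ) (i' : ℤ)
    (hn : n - (a + j) = n') (hi : i - 2 * ((a : ℤ) + j) = i') : AddGroup.FG (T.H X n' i') :=
  fg_cast T X hn hi (fg_of_pi h ⟨j, hj⟩)

/-- projective bundle formula, used backwards -/
theorem fg_of_prP (T : Theory) (hT : Facts T) (X : T.Obj) (e m j : ℕ) (i : ℤ)
    (h : AddGroup.FG (T.H (T.prP X (m + j)) (T.dim (T.prP X (m + j)) + e) (i + 2 * j))) :
    AddGroup.FG (T.H X (T.dim X + m + e) i) := by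
  have hd := hT.dim_prP X (m + j)
  obtain ⟨φ⟩ := hT.proj X (m + j) (T.dim (T.prP X (m + j)) + e) (i + 2 * j) (by omega)
  refine fg_comp T X _ _ 0 _ (fg_of_equiv φ h) j (by omega) _ _ ?_ ?_
  · rw [hd]; omega
  · push_cast; ring

/-- blow-up formula, used backwards -/
theorem fg_of_blow (T : Theory) (Y P B : T.Obj) (N n e : ℕ) (i : ℤ)
    (hb : Nonempty (T.H B (N + 1 + e) (i + 2 * ((N + 1 + e - n : ℕ) : ℤ)) ≃+
      T.H P (N + 1 + e) (i + 2 * ((N + 1 + e - n : ℕ) : ℤ)) ×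
        Tate T Y (N + 1 + e) (i + 2 * ((N + 1 + e - n : ℕ) : ℤ)) 1 (N - T.dim Y)))
    (hn : T.dim Y + e < n) (hN : n ≤ N + e)
    (h : AddGroup.FG (T.H B (N + 1 + e) (i + 2 * ((N + 1 + e - n : ℕ) : ℤ)))) :
    AddGroup.FG (T.H Y n i) := by
  obtain ⟨φ⟩ := hb
  refine fg_comp T Y _ _ 1 _ (fg_snd (fg_of_equiv φ h)) (N + e - n) (by omega) _ _ (by omega) ?_
  have : ((N + 1 + e - n : ℕ) : ℤ) = 1 + ((N + e - n : ℕ) : ℤ) := by omega
  rw [this]; push_cast; ring

/-- a finitely generated uniquely divisible group is zero -/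
theorem subsingleton_of_fg_divisible {A : Type} [AddCommGroup A] (h : AddGroup.FG A)
    (hd : ∀ m : ℕ, 0 < m → Function.Bijective fun x : A => m • x) : Subsingleton A := by
  have h1 : Module.Finite ℤ A := Module.Finite.iff_addGroup_fg.mpr h
  have h2 : (⊤ : Submodule ℤ A) ≤ (Ideal.span {(2 : ℤ)}) • (⊤ : Submodule ℤ A) := by
    intro x _
    obtain ⟨y, hy⟩ := (hd 2 (by norm_num)).2 x
    have hy' : x = (2 : ℤ) • y := by
      rw [← hy]
      change (2 : ℕ) • y = (2 : ℤ) • y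
      rw [ofNat_zsmul]
    rw [hy']
    exact Submodule.smul_mem_smul (Ideal.subset_span rfl) trivial
  obtain ⟨r, hr1, hr2⟩ :=
    Submodule.exists_sub_one_mem_and_smul_eq_zero_of_fg_of_le_smul _ _ h1.fg_top h2
  have hr0 : r ≠ 0 := by
    rintro rfl
    rw [Ideal.mem_span_singleton] at hr1
    omega
  refine ⟨fun x y => ?_⟩
  have hz : ∀ x : A, x = 0 := by
    intro x
    have h3 : r • x = 0 := hr2 x trivial
    have h4 : r.natAbs • x = 0 := by
      rcases Int.natAbs_eq r with h5 | h5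
      · rw [h5, natCast_zsmul] at h3; exact h3
      · rw [h5, neg_smul, natCast_zsmul, neg_eq_zero] at h3; exact h3
    exact (hd r.natAbs (Int.natAbs_pos.mpr hr0)).1 (by simpa using h4)
  rw [hz x, hz y]

end Pool.Agent.N522.AM
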