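import Pool.Agent.N522.AM.Lemmas

namespace Pool.Agent.N522.AM

/-- the groups of weight `dim X + e` are finitely generated in the degrees
`max(0, κ · dim X) ≤ i ≤ 2 (dim X + e) + c`, for all `X` in `S` -/
def Window (T : Theory) (S : T.Obj → Prop) (e c : ℕ) (κ : ℚ) : Prop :=
  ∀ X, S X → ∀ i : ℤ, 0 ≤ i → κ * (T.dim X : ℚ) ≤ i → i ≤ 2 * ((T.dim X + e : ℕ) : ℤ) + c →
    AddGroup.FG (T.H X (T.dim X + e) i)

/-- the groups of all weights `n ≥ dim X + e` are finitely generated in all degrees `i ≤ 2n + c`, for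
all `X` in `S` -/
def AllWeights (T : Theory) (S : T.Obj → Prop) (e c : ℕ) : Prop :=
  ∀ X, S X → ∀ n : ℕ, T.dim X + e ≤ n → ∀ i : ℤ, i ≤ 2 * (n : ℤ) + c →
    AddGroup.FG (T.H X n i)

/-- the groups of all weights `n ≥ dim X + e` are zero in negative degrees, for all `X` in `S` -/
def Vanishing (T : Theory) (S : T.Obj → Prop) (e : ℕ) : Prop :=
  ∀ X, S X → ∀ n : ℕ, T.dim X + e ≤ n → ∀ i : ℤ, i < 0 → Subsingleton (T.H X n i)

theorem exists_large (κ : ℚ) (hκ : κ < 2) (a : ℕ) (i : ℤ) :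
    ∃ j0 : ℕ, ∀ j : ℕ, j0 ≤ j → κ * ((a + j : ℕ) : ℚ) ≤ ((i + 2 * (j : ℤ) : ℤ) : ℚ) ∧
      0 ≤ i + 2 * (j : ℤ) := by
  obtain ⟨j1, hj1⟩ := exists_nat_gt ((κ * a - i) / (2 - κ))
  refine ⟨j1 + i.natAbs, fun j hj => ⟨?_, by omega⟩⟩
  have h0 : 0 < 2 - κ := by linarith
  rw [div_lt_iff₀ h0] at hj1
  have h1 : (j1 : ℚ) ≤ j := by exact_mod_cast (le_trans (Nat.le_add_right _ _) hj)
  have h2 : (j1 : ℚ) * (2 - κ) ≤ j * (2 - κ) := mul_le_mul_of_nonneg_right h1 h0.le
  push_cast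
  nlinarith

theorem allWeights_of_window (T : Theory) (hT : Facts T) (S : T.Obj → Prop)
    (hS : Class T S) (e c : ℕ) (κ : ℚ) (hκ : κ < 2) (h : Window T S e c κ) :
    AllWeights T S e c := by
  intro X hX n hn i hi
  obtain ⟨m, rfl⟩ := Nat.exists_eq_add_of_le hn
  obtain ⟨j0, hj0⟩ := exists_large κ hκ (T.dim X + m) i
  obtain ⟨h1, h2⟩ := hj0 j0 le_rfl
  have hd := hT.dim_prP X (m + j0)
  have h3 := h (T.prP X (m + j0)) (hS.prP X _ hX) (i + 2 * j0) h2
    (by rw [hd, ← add_assoc]; exact h1) (by rw [hd]; push_cast at hi ⊢; linarith)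
  exact fg_cast T X (by omega) rfl (fg_of_prP T hT X e m j0 i h3)

theorem allWeights_finite (T : Theory) (hT : Facts T) (S : T.Obj → Prop)
    (hS : Class T S) (e c : ℕ) (h : AllWeights T S e c) :
    AllWeights T T.FiniteField (e + 1) c := by
  intro Y hY n hn i hi
  obtain ⟨N0, hN0⟩ := hT.blow Y hY
  obtain ⟨hYN, P, B, hB, hdB, hb⟩ := hN0 (N0 + n) (Nat.le_add_right _ _)
  refine fg_of_blow T Y P B (N0 + n) n e i (hb _ _ (by omega)) (by omega) (by omega) ?_
  refine h B (hS.flat B hB) _ (by omega) _ ?_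
  have : ((N0 + n + 1 + e - n : ℕ) : ℤ) = N0 + 1 + e := by omega
  rw [this]; push_cast; linarith

theorem vanishing_of (T : Theory) (hT : Facts T) (S : T.Obj → Prop) (e c : ℕ)
    (h : AllWeights T S e c) : Vanishing T S e := by
  intro X hX n hn i hi
  exact subsingleton_of_fg_divisible (h X hX n hn i (by omega))
    (hT.divisible X n i (by omega) hi)

/-- The main equivalence. -/
theorem main (T : Theory) (hT : Facts T) (S : T.Obj → Prop) (hS : Class T S) (e c : ℕ)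
    (κ : ℚ) (hκ : κ < 2) :
    Window T S e c κ ↔ AllWeights T S e c ∧ Vanishing T S e ∧
      AllWeights T T.FiniteField (e + 1) c ∧ Vanishing T T.FiniteField (e + 1) := by
  constructor
  · intro h
    have h1 := allWeights_of_window T hT S hS e c κ hκ h
    have h2 := allWeights_finite T hT S hS e c h1
    exact ⟨h1, vanishing_of T hT S e c h1, h2, vanishing_of T hT _ (e + 1) c h2⟩
  · rintro ⟨h, -⟩ X hX i _ _ hi
    exact h X hX _ le_rfl i hi

end Pool.Agent.N522.AM
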